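import Pool.Agent.Helper17.BP.MCMain
import Pool.Agent.Helper17.BP.K3Sys

/-!
# Perfectness of the cup product pairings for products with K3 surfaces of different heights

Let `κ` be a finite field with `q = p ^ m` elements, and `𝒱` a class of smooth projective varieties over
`κ`, closed under products, with Chow groups `A` with rational coefficients and a Weil cohomology theory
`H` (framework of the starting files: `TheoryData`, `IsChow`, `IsWeil`). Let `X_i`, `1 ≤ i ≤ r`, be K3
surfaces over `κ` of finite heights `h_i`, with `22 - b_i` the geometric Picard number, all divisors
being defined over `κ` (true after a finite extension of `κ`). More generally (`HasK3Type`) `X_i` is a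
variety whose cohomology is generated by the classes of algebraic cycles and a subspace `T` stable under
the Frobenius, where the eigenvalues of the Frobenius are, up to roots of unity and after an extension of
`κ` of degree `e_i`, of the form `q ^ w` times a product of at most `n_i` conjugates of the number `α_i`,
not balanced (some conjugate and its inverse do not occur equally often). Here `α_i` is the Frobenius
number of a K3 surface of height `h_i` (`IsK3Number`: all powers of `α_i` generate the CM field `E_i`,
the complex absolute values are `1`, the `p`-adic embeddings with `|α_i| > 1` belong to one place, and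
there `|α_i| = q ^ (1 / h_i)`; `h_i` and `b_i` are the same multiple of the local degree and of the degree
`2 d_i` of `E_i`). So `X_i` can be a K3 surface or a cubic fourfold (`n_i = 1`), a power of
a K3 surface or a Hilbert scheme of points of a K3 surface, if the Tate conjecture is known for it (for
instance `S × S`, `n_i = 2`, for all K3 surfaces `S` of finite height: Ito, Ito and Koshikawa).

Let `Z` be **any** smooth projective variety in `𝒱`, and `Γ` a set of rational numbers which contains
`0`, such that for even `w` the eigenvalues of weight `w` of the Frobenius on `H(Z)` have slopes in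
`w / 2 + Γ`. Suppose (`Admissible`) that

* integers `a_i`, `|a_i| ≤ n_i`, such that `∑ a_i / h_i` belongs to `Γ` are zero, and that `n_i ≤ 2`, or
  `n_i = 3` and `(d_i, m_i) ∉ exceptionalPairs`, or `m_i` is odd and `(d_i, m_i) ∉ exceptionalOddPairs`,
  with the local degree `m_i`; or
* (`Γ = {0}`) this only for the `a_i` with index `i` in a set of indices (the `Isolated` ones), and for
  the other indices only that `n_i = 1`, that the `h_i` are different, and that there are not three such
  indices with `(h, b) = (2, 4), (3, 6), (6, 12)` (the bounds `h ≤ 11`, `b ≤ 23` hold for all K3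
  surfaces).

Moreover homologically trivial self-correspondences of degree zero of the products of `Z` and of the
`X_i` are nilpotent (for example if the motives are finite-dimensional in the sense of Kimura and
O'Sullivan).

Motivic cohomology (`MotivicCohomology`): `M.H m` is the theory `X ↦ ⨁ H^(2n-m)(X, ℚ(n))`, and
`M.cup m` are the pairings `H^(2n-m)(X, ℚ(n)) × H^(2(d-n)+m)(X, ℚ(d-n)) → ℚ` of the question, `d = dim X`,
`i = 2n - m`. Only the following is used (`IsMotivicCohomology`): correspondences act, the Frobenius
endomorphism acts as `q ^ n` in weight `n`, and the operation of the transposed correspondence is adjoint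
for the pairings.

**Theorem.** Let `V` be the product of `Z` and of finitely many of the `X_i` (pairwise different), and
`δ = dim V - dim Z`.
1. For all integers `i`, `n` **the pairing `⟨·,·⟩_{i,n}` of `V` is perfect if and only if the pairings
  `⟨·,·⟩_{i-2k,n-k}` of `Z` are perfect for `0 ≤ k ≤ δ`**. So the answer to Q1 for `V` (for all `i` and
  `n`) is the same as the answer for `Z`.
2. `H^i(V, ℚ(n)) = 0` if and only if `H^(i-2k)(Z, ℚ(n-k)) = 0` for `0 ≤ k ≤ δ`.
3. Rational and numerical equivalence coincide on `V`, up to torsion, if and only if they coincide
  on `Z`.

In particular: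
* (`Γ = {0}`) the pairings are perfect for **all products `V` of K3 surfaces of pairwise different finite
  heights** (not `2, 3, 6` with Picard numbers `18, 16, 10`) and of a curve, or a variety with
  supersingular even cohomology for which they are perfect, as soon as the motives are
  finite-dimensional, for example for `X_1 × X_2 × C` where `X_1`, `X_2` are the Kummer surfaces of an
  ordinary abelian surface and of an abelian surface of `p`-rank one, and `C` is any curve;
* (`Γ` the integers) for a K3 surface `X` of height `h > 1` and **every** variety `Z` with integral
  slopes in even degrees, for instance every ordinary `Z`, perfectness for `X × Z` is equivalent to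
  perfectness for `Z`.

Idea of the proof: by the results on slopes of the starting files (helper179) no product of
eigenvalues of the Frobenius on the parts `T` of several `X_i` and on the cohomology of `Z` is a
power of `q`. So the intersection pairing on the algebraic classes of `X_i` is not degenerate, and for
dual systems `D j`, `E j` of cycles on `X_i` one has the Künneth formula
`T^n(X_i × V') = ⨁ D j × T^(n - deg j)(V')` for every theory `T` on which correspondences act and the
Frobenius acts as `q ^ n`. The system `E j` gives such a formula, too, and the two decompositions, for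
the theories `H^(2n-m)(·, ℚ(n))` and `H^(2n+m)(·, ℚ(n))`, are orthogonal for the cup product pairing, which
becomes the direct sum of the pairings of `V'`.
-/

set_option autoImplicit false

open Finset Polynomial CategoryTheory AlgebraicGeometry NumberField

namespace Pool.Agent.Results.MP_a9d3bd_ag.DifferentHeights

open Pool.Agent.H914 Pool.Agent.H914.VarClass Pool.Agent.H914.VarClass.Obj Pool.Agent.W492.BB
  Pool.Agent.W484.CK Pool.Agent.N876.R816 Pool.Agent.Helper17.BP

/-- **Perfectness of the cup product pairings for products with K3 surfaces of different heights.** -/
theorem result (p m : ℕ) [Fact p.Prime] (κ : Type) [Field κ] [Fintype κ] {r : ℕ}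
    (E : Fin r → Type) [∀ i, Field (E i)] [∀ i, NumberField (E i)] [∀ i, IsCMField (E i)]
    (α : ∀ i, E i) (e h b n : Fin r → ℕ) (Γ : Set ℚ) (hD : IsK3Data κ p m α e h b n Γ)
    {𝒱 : VarClass κ} (A : TheoryData.{0, 0, 0} 𝒱 ℚ) [IsChow A] {K : Type} [Field K]
    [IsAlgClosed K] [CharZero K] (H : WeilTheoryData.{0, 0, 0} A K) [IsWeil H]
    (F : ∀ X : 𝒱.Obj, X ⟶ X) (X : Fin r → 𝒱.Obj) (Z : 𝒱.Obj)
    (hS : IsK3System p m α e n Γ H F X Z (Polynomial.X - 1))
    (hnil : ∀ L : List (Fin r), Nilpotence H (productOf X Z L))
    (M : MotivicCohomology A) (hM : IsMotivicCohomology M F (Fintype.card κ)) (L : List (Fin r))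
    (hL : L.Nodup) :
    (∀ i n : ℤ, M.IsPerfect (productOf X Z L) i n ↔
      ∀ k : ℕ, k ≤ dimension X L → M.IsPerfect Z (i - 2 * k) (n - k)) ∧
    (∀ i n : ℤ, M.IsZero (productOf X Z L) i n ↔
      ∀ k : ℕ, k ≤ dimension X L → M.IsZero Z (i - 2 * k) (n - k)) ∧
    ((∀ i n : ℤ, M.IsPerfect (productOf X Z L) i n) ↔ ∀ i n : ℤ, M.IsPerfect Z i n) ∧
    (RatEqNum H (productOf X Z L) ↔ RatEqNum H Z) := by
  have hS' := cs_k3 hD hS hnil
  rw [productOf_eq, dimension_eq]
  obtain ⟨h1, h2, h3⟩ := perfect_main hS' (fun i => hS.polarized i) M hM L hL
  exact ⟨h1, h2, h3, hS'.ratEqNum_tw hL⟩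

end Pool.Agent.Results.MP_a9d3bd_ag.DifferentHeights
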