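import Pool.Agent.Helper17.BP.Pair
import Pool.Agent.Helper17.BP.Cov

/-!
# Perfectness of the cup product pairings for products with cyclic coverings branched along hyperplanes

Let `κ` be a finite field with `q = c ^ f` elements, and `𝒱` a class of smooth projective varieties over
`κ`, closed under products, with Chow groups `A` with rational coefficients and a Weil cohomology theory
`H` (framework of the starting files: `TheoryData`, `IsChow`, `IsWeil`). Let `X_i` be varieties in `𝒱`, of
any dimensions `n_i`, which are models of cyclic coverings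

  `w ^ N_i = ∏ l_{i,k} (x) ^ a_{i,k}`

of projective spaces, branched along hyperplanes `l_{i,k} = 0` over `κ`, with exponents prime to `N_i`,
where `N_i` divides `q - 1` (`IsModel`, see the definitions: the cohomology is generated by the
classes of cycles and a part `T`, pure of weight `n_i`, without invariants under the covering
group, for which the trace formula holds). Let `N` be a common multiple of the `N_i`, and `λ` an
integer such that `IsSmall N λ` holds: for every nonempty finite set `I` of indices and all `j_i` not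
divisible by `N_i` (`i ∈ I`) there is a `u` prime to `N` with
`∑_{i ∈ I} weight X_i (u j_i) + λ / 2 < ∑_{i ∈ I} (n_i / 2 + 1)`; here `weight X j` is the mean over the
orbit `j, c j, …, c ^ (f - 1) j` of the sum of the fractional parts of `j a_k / N_i`.

Let `Z` be **any** smooth projective variety in `𝒱`. We assume that the eigenvalues `b` of the Frobenius
on `H(Z)` are of the form `|b| ^ 2 = q ^ j` (theorem of Deligne) and that
* either `λ = 0` and the cyclotomic polynomial of order `N` is irreducible over the field generated by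
  the numbers `b` (for given `Z` this is true for all `N` prime to the discriminant of this field),
* or `Z` is of level `≤ λ`: the numbers `q ^ λ b / b̄` are algebraic integers. This is true if
  `dim Z ≤ λ`.

Moreover homologically trivial self-correspondences of degree zero of the products of `Z` and of the
`X_i` are nilpotent (known for example if `Z` is dominated by a product of curves and the `X_i` are
curves or have `n_i + 2` branch hyperplanes in general position, since then the motives are
finite-dimensional in the sense of Kimura and O'Sullivan).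

Motivic cohomology (`MotivicCohomology`): `M.H m` is the theory `X ↦ ⨁ H^(2n-m)(X, ℚ(n))`, and
`M.cup m` are the pairings `H^(2n-m)(X, ℚ(n)) × H^(2(d-n)+m)(X, ℚ(d-n)) → ℚ` of the question, `d = dim X`,
`i = 2n - m`. Only the following is used (`IsMotivicCohomology`): correspondences act, the Frobenius
endomorphism acts as `q ^ n` in weight `n`, and the operation of the transposed correspondence is adjoint
for the pairings.

**Theorem.** Let `V` be the product of `Z` and of finitely many of the `X_i` (pairwise different), and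
`δ = dim V - dim Z`.
1. For all integers `i`, `n` **the pairing `⟨·,·⟩_{i,n}` of `V` is perfect if and only if the pairings
  `⟨·,·⟩_{i-2k,n-k}` of `Z` are perfect for `0 ≤ k ≤ δ`**. So the answer to Q1 for `V` (for all `i` and
  `n`) is the same as the answer for `Z`. In particular it is positive for all products `V` of the `X_i`
  (`Z` a point: theorem of Quillen on the `K`-theory of finite fields), and if `Z` is a curve.
2. `H^i(V, ℚ(n)) = 0` if and only if `H^(i-2k)(Z, ℚ(n-k)) = 0` for `0 ≤ k ≤ δ`.
3. Rational and numerical equivalence coincide on `V`, up to torsion, if and only if they coincide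
  on `Z`.

Examples. (a) Let `X_i` be curves `y ^ N_i = ∏ (x - x_{i,k})` with `N_i` factors, of genus
`(N_i - 1) (N_i - 2) / 2`, for different prime numbers `N_i` dividing `c - 1`. Then `weight X_i j` is the
residue of `j` modulo `N_i`, and `IsSmall N 0` holds for the product `N` of the `N_i` (take `u` with
`u j_i = 1` modulo `N_i`). (b) Let `X` be the variety `w ^ N = l_1 ⋯ l_N` of dimension `n = N - 2`, with
`N` hyperplanes in general position, for a prime number `N` dividing `c - 1` (the resolutions are
Calabi-Yau varieties). The weight for `u j = 1` is `1`, so `IsSmall N λ` holds for all `λ < n`: the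
theorem applies to **all `Z` of dimension smaller than `dim X`** (with finite-dimensional motive).

Idea of the proof: by the theorem of Stickelberger on Gauss sums and the product formula no product of
eigenvalues of the Frobenius on the parts `T` of several `X_i` and on the cohomology of `Z` is a
power of `q` (starting files, helper876 and others). So the intersection pairing on the algebraic
classes of `X_i` is not degenerate, and for dual systems `D j`, `E j` of cycles on `X_i` one has the
Künneth formula `T^n(X_i × V') = ⨁ D j × T^(n - deg j)(V')` for every theory `T` on which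
correspondences act and the Frobenius acts as `q ^ n`. The new step is that `E j` gives such a formula,
too, and that the two decompositions, for the theories `H^(2n-m)(·, ℚ(n))` and
`H^(2n+m)(·, ℚ(n))`, are orthogonal for the cup product pairing, which becomes the direct sum of the
pairings of `V'`.
-/

set_option autoImplicit false

open Finset Polynomial CategoryTheory AlgebraicGeometry

namespace Pool.Agent.Results.MP_a9d3bd_ag.HyperplaneCoverings

open Pool.Agent.H914 Pool.Agent.H914.VarClass Pool.Agent.H914.VarClass.Obj Pool.Agent.W492.BB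
  Pool.Agent.W484.CK Pool.Agent.N876.R816 Pool.Agent.Helper17.BP

section defs

variable {κ : Type} [Field κ] {𝒱 : VarClass κ} {A : TheoryData.{0, 0, 0} 𝒱 ℚ}

/-- Both maps `V → Hom(W, ℚ)` and `W → Hom(V, ℚ)` given by the bilinear form are bijective. -/
def IsPerfectForm {V W : Type} [AddCommGroup V] [Module ℚ V] [AddCommGroup W] [Module ℚ W]
    (β : V →ₗ[ℚ] W →ₗ[ℚ] ℚ) : Prop :=
  Function.Bijective β ∧ Function.Bijective β.flip

/-- The data of motivic cohomology with rational coefficients: for every integer `m` the theory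
`X ↦ ⨁ H^(2n-m)(X, ℚ(n))`, with the grading by `n`, and the pairings of the theories for `m` and `-m`
given by the cup product and the degree map. -/
structure MotivicCohomology (A : TheoryData.{0, 0, 0} 𝒱 ℚ) where
  /-- the theory `⨁ H^(2n-m)(X, ℚ(n))` -/
  H : ℤ → MotivicData A
  /-- the cup product pairing -/
  cup : ∀ (m : ℤ) (X : 𝒱.Obj), (H m).M X →ₗ[ℚ] (H (-m)).M X →ₗ[ℚ] ℚ

/-- The transposed correspondence. -/
noncomputable def transpose {X Y : 𝒱.Obj} (Γ : A.A (X.prod Y)) : A.A (Y.prod X) :=
  A.down (Obj.lift (snd X Y) (fst X Y)) Γ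

/-- Correspondences act on motivic cohomology, the Frobenius endomorphisms `F X` act as
multiplication by `q ^ n` on `H^(2n-m)(X, ℚ(n))`, and the pairings are compatible with
correspondences: `⟨Γ t, t'⟩ = ⟨t, Γ' t'⟩` for the transposed correspondence `Γ'`. -/
structure IsMotivicCohomology (M : MotivicCohomology A) (F : ∀ X : 𝒱.Obj, X ⟶ X) (q : ℕ) :
    Prop where
  motivic : ∀ m, IsMotivic (M.H m)
  frobenius : ∀ (m : ℤ) (X : 𝒱.Obj), ActsAsPower (M.H m) (F X) q
  adjoint : ∀ (m : ℤ) {X Y : 𝒱.Obj} (Γ : A.A (X.prod Y)) (t : (M.H m).M X)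
    (t' : (M.H (-m)).M Y), M.cup m Y ((M.H m).app Γ t) t' =
      M.cup m X t ((M.H (-m)).app (transpose Γ) t')

/-- The pairing `H^(2n-m)(X, ℚ(n)) × H^(2(d-n)+m)(X, ℚ(d-n)) → ℚ`, `d = dim X`. -/
noncomputable def MotivicCohomology.pairing (M : MotivicCohomology A) (m : ℤ) (X : 𝒱.Obj)
    (n : ℤ) : (M.H m).gr X n →ₗ[ℚ] (M.H (-m)).gr X (X.dim - n) →ₗ[ℚ] ℚ :=
  (M.cup m X).domRestrict₁₂ ((M.H m).gr X n) ((M.H (-m)).gr X (X.dim - n))

/-- The pairing `⟨·,·⟩_{i,n}` of the question, `i = 2n - m`, is perfect. -/
def MotivicCohomology.IsPerfect (M : MotivicCohomology A) (X : 𝒱.Obj) (i n : ℤ) : Prop :=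
  ∀ m : ℤ, i = 2 * n - m → IsPerfectForm (M.pairing m X n)

/-- `H^i(X, ℚ(n)) = 0`. -/
def MotivicCohomology.IsZero (M : MotivicCohomology A) (X : 𝒱.Obj) (i n : ℤ) : Prop :=
  ∀ m : ℤ, i = 2 * n - m → (M.H m).gr X n = ⊥

end defs

/-- **Perfectness of the cup product pairings for products with cyclic coverings branched along
hyperplanes.** -/
theorem result (c : ℕ) [Fact c.Prime] (κ : Type) [Field κ] [Fintype κ] [CharP κ c] {ι : Type}
    (C : ι → Covering κ) (f N lam : ℕ) (hC : IsSmallSystem C c f N lam)
    {𝒱 : VarClass κ} (A : TheoryData.{0, 0, 0} 𝒱 ℚ) [IsChow A] {K : Type} [Field K]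
    [IsAlgClosed K] [CharZero K] (H : WeilTheoryData.{0, 0, 0} A K) [IsWeil H] (τ : K →+* ℂ)
    (F : ∀ X : 𝒱.Obj, X ⟶ X) (X : ι → 𝒱.Obj) (Z : 𝒱.Obj) (h : IsSystem C N lam H τ F X Z)
    (M : MotivicCohomology A) (hM : IsMotivicCohomology M F (Fintype.card κ)) (L : List ι)
    (hL : L.Nodup) :
    (∀ i n : ℤ, M.IsPerfect (productOf X Z L) i n ↔
      ∀ k : ℕ, k ≤ dimension X L → M.IsPerfect Z (i - 2 * k) (n - k)) ∧
    (∀ i n : ℤ, M.IsZero (productOf X Z L) i n ↔
      ∀ k : ℕ, k ≤ dimension X L → M.IsZero Z (i - 2 * k) (n - k)) ∧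
    ((∀ i n : ℤ, M.IsPerfect (productOf X Z L) i n) ↔ ∀ i n : ℤ, M.IsPerfect Z i n) ∧
    (RatEqNum H (productOf X Z L) ↔ RatEqNum H Z) := by
  obtain ⟨S, hS⟩ := cs_cov c κ C f N lam hC A H τ F X Z h
  have hbig : ∀ i, Pool.Agent.N876.CG.Big H (X i) := fun i => h.polarized i
  have hT : ∀ m, Pool.Agent.W484.CH.IsCorrTheory (toCorr (M.H m)) := fun m =>
    toCorr_isCorrTheory (hM.motivic m)
  have hF : ∀ m X, Pool.Agent.W484.CH.ActsAsPower (toCorr (M.H m)) (F X) (Fintype.card κ) :=
    fun m X => toCorr_actsAsPower (hM.frobenius m X)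
  have hb : ∀ m, Adj (toCorr (M.H m)) (toCorr (M.H (-m))) (M.cup m) := fun m {X Y} Γ t t' =>
    hM.adjoint m Γ t t'
  rw [productOf_eq, dimension_eq]
  have key : ∀ (p : 𝒱.Obj → ℤ → ℤ → Prop) (P : ℤ → 𝒱.Obj → ℤ → Prop),
      (∀ X i n, p X i n ↔ ∀ m : ℤ, i = 2 * n - m → P m X n) →
      (∀ m n, P m (Pool.Agent.N876.CG.tw X Z L) n ↔
        ∀ l : ℤ, n - Pool.Agent.N876.CG.dims X L ≤ l → l ≤ n → P m Z l) →
      ∀ i n : ℤ, p (Pool.Agent.N876.CG.tw X Z L) i n ↔
        ∀ k : ℕ, k ≤ Pool.Agent.N876.CG.dims X L → p Z (i - 2 * k) (n - k) := by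
    intro p P hp hP i n
    rw [hp]
    constructor
    · intro h1 k hk
      rw [hp]
      intro m hm
      exact (hP m n).1 (h1 m (by omega)) _ (by omega) (by omega)
    · intro h1 m hm
      rw [hP]
      intro l hl1 hl2
      obtain ⟨k, hk⟩ := Int.eq_ofNat_of_zero_le (sub_nonneg.2 hl2)
      have h2 := (hp _ _ _).1 (h1 k (by omega)) m (by omega)
      have h3 : n - (k : ℤ) = l := by omega
      rwa [h3] at h2
  have h1 := key M.IsPerfect (fun m X n => IsPerfectForm (M.pairing m X n)) (fun _ _ _ => Iff.rfl)
    (fun m n => pf_tw hS hbig hL (hT m) (hT (-m)) (hF m) (hF (-m)) (hb m) n)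
  refine ⟨h1, key M.IsZero (fun m X n => (M.H m).gr X n = ⊥) (fun _ _ _ => Iff.rfl)
    (fun m n => hS.vanish_tw hbig hL (hT m) (hF m) n), ⟨fun h2 i n => ?_, fun h2 i n => ?_⟩, ?_⟩
  · have h3 := (h1 i n).1 (h2 i n) 0 (Nat.zero_le _)
    simpa using h3
  · exact (h1 i n).2 fun k _ => h2 _ _
  · exact hS.ratEqNum_tw hL

end Pool.Agent.Results.MP_a9d3bd_ag.HyperplaneCoverings
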