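import Pool.Agent.Helper17.BP.MCMain
import Pool.Agent.Helper17.SL.PSys

/-!
# Perfectness of the cup product pairings and independent slopes

Let `κ` be a finite field with `q = p ^ m` elements, and `𝒱` a class of smooth projective varieties over
`κ`, closed under products, with Chow groups `A` with rational coefficients and a Weil cohomology theory
`H` (framework of the starting files: `TheoryData`, `IsChow`, `IsWeil`).

Slopes. Let `p` be the characteristic of `κ`, and `slope` the valuation of the algebraic closure of `ℚ_p`
with `slope q = 1`. Let `x` be a Weil number of weight `w` (algebraic, with all complex absolute values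
`q ^ (w / 2)`). For a set `D ⊂ ℤ/2 × ℚ` let `SlopesIn D x` mean that the slopes `λ` of all `p`-adic
conjugates of `x` satisfy `(w mod 2, λ - w / 2) ∈ D`, and let `SlopesMeet D B x` mean that moreover
`(w mod 2, λ - w / 2) ∈ B` for at least one of these slopes.

Let `X_i`, `1 ≤ i ≤ r`, be varieties in `𝒱` whose cohomology is generated by the classes of algebraic
cycles and a subspace `T_i` stable under the Frobenius, with `SlopesMeet (D i) (B i)` for the
eigenvalues of the Frobenius on `T_i` (`HasSlopeCohomology`). Let `Z` be **any** smooth projective
variety in `𝒱` with `SlopesIn D₀` for the eigenvalues of the Frobenius on `H(Z)`, where `D₀` contains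
`(0, 0)`. Suppose that the sets of slopes are independent (`Independent`): **if
`d_i ∈ D i`, for `i` in a set of indices, and `d ∈ D₀` satisfy `∑ d_i + d = 0`, then no `d_i` is in `B i`**.
The following two cases are typical.

* (Coprime denominators; `independent_coprime` in `Pool.Agent.Helper17.SL.Coprime`) There are pairwise
  coprime positive integers `N_0, N_1, …, N_r` such that `N_i` is a denominator of the slopes of `X_i`, and
  `N_0` of those of `Z`, and every eigenvalue on `T_i` has a conjugate whose slope is not an integer.
* (`B i` the pairs with second component different from zero) No eigenvalue on `T_i` is supersingular;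
  if the Tate conjecture and semisimplicity are known for `X_i` over all finite extensions of `κ`, such
  a `T_i` exists if and only if the supersingular cohomology classes have even degree and are defined over
  `κ`. For K3 surfaces or cubic fourfolds `X_i` of finite heights `h_i`, with **arbitrary** Picard
  numbers and fields of endomorphisms, the set `D i` consists of `(0, 0)`, `(0, 1 / h_i)` and
  `(0, -1 / h_i)`, and independence means that `∑ ± 1 / h_i + c ≠ 0` for every choice of signs, every
  nonempty set of indices and all `(0, c) ∈ D₀`.

For example: `X_1` any supersingular abelian variety or curve whose even cohomology is generated by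
classes of cycles over `κ` (the odd cohomology has slopes `w / 2`, `w` odd, `N_1 = 2`), `X_2` a K3
surface or a cubic fourfold of height `3`, or a curve or an abelian variety with slopes with
denominator `3` (`N_2 = 3`), and so on, and `Z` **any** variety with integral slopes, for
instance any ordinary variety.

Moreover homologically trivial self-correspondences of degree zero of the products of `Z` and of the
`X_i` are nilpotent (for example if the motives are finite-dimensional in the sense of Kimura and
O'Sullivan).

Motivic cohomology (`MotivicCohomology`): `M.H m` is the theory `X ↦ ⨁ H^(2n-m)(X, ℚ(n))`, and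
`M.cup m` are the pairings `H^(2n-m)(X, ℚ(n)) × H^(2(d-n)+m)(X, ℚ(d-n)) → ℚ` of the question, `d = dim X`,
`i = 2n - m`. Only the following is used (`IsMotivicCohomology`): correspondences act, the Frobenius
endomorphism acts as `q ^ n` in weight `n`, and the operation of the transposed correspondence is adjoint
for the pairings.

**Theorem.** Let `V` be the product of `Z` and of finitely many of the `X_i` (pairwise different), and
`δ = dim V - dim Z`.
1. For all integers `i`, `n` **the pairing `⟨·,·⟩_{i,n}` of `V` is perfect if and only if the pairings
  `⟨·,·⟩_{i-2k,n-k}` of `Z` are perfect for `0 ≤ k ≤ δ`**. So the answer to Q1 for `V` (for all `i` and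
  `n`) is the same as the answer for `Z`.
2. `H^i(V, ℚ(n)) = 0` if and only if `H^(i-2k)(Z, ℚ(n-k)) = 0` for `0 ≤ k ≤ δ`.
3. Rational and numerical equivalence coincide on `V`, up to torsion, if and only if they coincide
  on `Z`.

Idea of the proof: a relation `(∏ μ_i) q ^ e β = q ^ w`, up to roots of unity, between eigenvalues `μ_i`
on `T_i`, `i ∈ I`, and an eigenvalue `β` on `H(Z)`, is mapped by every embedding of the field
`ℚ(μ_i, β)` into the complex and into the `p`-adic numbers to a relation between weights and between
slopes; for an embedding with slope of one `μ_i` in `B i` this contradicts independence. So the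
intersection pairing on the algebraic classes of `X_i` is not degenerate, and one has the two
orthogonal Künneth formulas of the earlier hand-in `DifferentHeights` on this question.
-/

set_option autoImplicit false

open Finset Polynomial CategoryTheory AlgebraicGeometry

namespace Pool.Agent.Results.MP_a9d3bd_ag.IndependentSlopes

open Pool.Agent.H914 Pool.Agent.H914.VarClass Pool.Agent.H914.VarClass.Obj Pool.Agent.W492.BB
  Pool.Agent.W484.CK Pool.Agent.N876.R816 Pool.Agent.Helper17.SL Pool.Agent.Helper17.SL.P
open Pool.Agent.Helper17.BP (MotivicCohomology IsMotivicCohomology)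

/-- **Perfectness of the cup product pairings and independent slopes.** -/
theorem result (p m : ℕ) [Fact p.Prime] (κ : Type) [Field κ] [Fintype κ] {r : ℕ}
    (D B : Fin r → Set (ZMod 2 × ℚ)) (D₀ : Set (ZMod 2 × ℚ)) {𝒱 : VarClass κ}
    (A : TheoryData.{0, 0, 0} 𝒱 ℚ) [IsChow A] {K : Type} [Field K]
    [IsAlgClosed K] [CharZero K] (H : WeilTheoryData.{0, 0, 0} A K) [IsWeil H]
    (F : ∀ X : 𝒱.Obj, X ⟶ X) (X : Fin r → 𝒱.Obj) (Z : 𝒱.Obj)
    (hS : IsSlopeSystem p m D B D₀ H F X Z (Polynomial.X - 1))
    (hnil : ∀ L : List (Fin r), Nilpotence H (productOf X Z L))
    (M : MotivicCohomology A) (hM : IsMotivicCohomology M F (Fintype.card κ)) (L : List (Fin r))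
    (hL : L.Nodup) :
    (∀ i n : ℤ, M.IsPerfect (productOf X Z L) i n ↔
      ∀ k : ℕ, k ≤ dimension X L → M.IsPerfect Z (i - 2 * k) (n - k)) ∧
    (∀ i n : ℤ, M.IsZero (productOf X Z L) i n ↔
      ∀ k : ℕ, k ≤ dimension X L → M.IsZero Z (i - 2 * k) (n - k)) ∧
    ((∀ i n : ℤ, M.IsPerfect (productOf X Z L) i n) ↔ ∀ i n : ℤ, M.IsPerfect Z i n) ∧
    (RatEqNum H (productOf X Z L) ↔ RatEqNum H Z) := by
  have hS' := cs_slope hS hnil
  rw [Pool.Agent.Helper17.BP.productOf_eq, Pool.Agent.Helper17.BP.dimension_eq]
  obtain ⟨h1, h2, h3⟩ := Pool.Agent.Helper17.BP.perfect_main hS' (fun i => hS.polarized i) M hM L hL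
  exact ⟨h1, h2, h3, hS'.ratEqNum_tw hL⟩

end Pool.Agent.Results.MP_a9d3bd_ag.IndependentSlopes
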