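import Pool.Agent.Helper11U.Surf

/-!
# Perfectness of the motivic pairings over finite fields and trilinear forms

`k` is a finite field. For a separated scheme `X` of finite type over `k` let `V i n X` be the motivic
homology `H_i^c(X, ℚ(n)) = Hom(ℚ(n)[i], M^c(X))`, `W i n X` the cohomology with compact supports
`H^i_c(X, ℚ(n)) = Hom(M^c(X), ℚ(n)[i])`, and `p i n X` the pairing `V × W → ℚ`. For `X` smooth and projective
of pure dimension `d` one has `V i n X = H^{2d - i}(X, ℚ(d - n))`, `W i n X = H^i(X, ℚ(n))`, and the
pairing is the one of the question.

The hypersurfaces `T(x, y, z) = 1` in affine spaces for trilinear forms `T` over `k` are smooth, of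
arbitrary dimension `N`, and `V i n` is their motivic cohomology `H^{2N - i}(-, ℚ(N - n))`.
-/

set_option autoImplicit false

open CategoryTheory CategoryTheory.Limits AlgebraicGeometry
open Pool.Agent.Helper11U Pool.Agent.Y116.UV Pool.Agent.Z125.UN Pool.Agent.Q282.UK

universe w

namespace Pool.Agent.Results.MP_a9d3bd_ag.TrilinearHypersurfaces

/-- The data: `V i n X = H_i^c(X, ℚ(n))`, `W i n X = H^i_c(X, ℚ(n))` and the pairings between them. -/
structure PairThy (k : Type) [Field k] where
  V : ℤ → ℤ → Sch k → ModuleCat.{w} ℚ
  W : ℤ → ℤ → Sch k → ModuleCat.{w} ℚ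
  p : ∀ i n X, V i n X →ₗ[ℚ] W i n X →ₗ[ℚ] ℚ

variable {k : Type} [Field k]

/-- The pairing of `V i n X` and `W i n X` is perfect: both induced maps `V → Hom(W, ℚ)` and
`W → Hom(V, ℚ)` are bijective. -/
def PairThy.IsPerfect (D : PairThy.{w} k) (i n : ℤ) (X : Sch k) : Prop :=
  Function.Bijective (D.p i n X) ∧ Function.Bijective (D.p i n X).flip

/-- The pairings of `X` are perfect in all degrees and weights. -/
def Perfect (D : PairThy.{w} k) (X : Sch k) : Prop := ∀ i n : ℤ, D.IsPerfect i n X

/-- The maps `V i n X → Hom(W i n X, ℚ)` given by the pairings, as a comparison map between the two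
homology theories `V` and `Hom(W, ℚ)`. -/
def PairThy.toCmp (D : PairThy.{w} k) : CmpThy.{w} k ℚ where
  M := D.V
  N i n X := ModuleCat.of ℚ (Module.Dual ℚ (D.W i n X))
  c i n X := ModuleCat.ofHom (D.p i n X)

/-- The known properties.
* `cmp`, `transfer`: the properties of the comparison maps `V → Hom(W, ℚ)` (`IsCmp`: the localization
  sequence of `V` and the dual of the localization sequence of `W`, affine bundles, `X × 𝔾_m`, the
  point), and transfers;
* `point`: the homology of `Spec k` is finite-dimensional (Quillen);
* `alterations`: the theorem of de Jong as a principle of dévissage;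
* `curves`: the pairings are perfect for smooth proper schemes of dimension at most one (Quillen,
  Harder, Soulé);
* `surfaces`: the pairings are perfect for the closed subschemes `X` of the affine spaces of dimension at
  most three all of whose equations are products of polynomials of degree at most three and of
  polynomials with at most four terms. (The components of `X` of dimension two have smooth projective
  models which are geometrically rational or ruled surfaces or are dominated by Fermat surfaces or
  products of curves; the pairings are perfect for them by Soulé, Geisser and Kahn.) -/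
structure IsPairThy (D : PairThy.{w} k) : Prop where
  cmp : IsCmp D.toCmp
  transfer : HasTransfer D.toCmp
  point : ∀ i n, Module.Finite ℚ (D.V i n (aff k k))
  alterations : Alterations k
  curves : ForSmoothProper (Perfect D) 1
  surfaces : ForNice (Perfect D) 3 3 4

variable {D : PairThy.{w} k}

lemma perfect_iff (i n : ℤ) (X : Sch k) :
    D.IsPerfect i n X ↔ Bij (D.toCmp.c i n X) ∧ Module.Finite ℚ (D.toCmp.M i n X) := by
  change _ ↔ Function.Bijective (D.p i n X) ∧ Module.Finite ℚ (D.V i n X)
  constructor
  · rintro ⟨h1, h2⟩
    have hp : (D.p i n X).IsPerfPair := ⟨h1, h2⟩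
    have hr : Module.IsReflexive ℚ (D.V i n X) := Module.IsReflexive.of_isPerfPair (D.p i n X)
    exact ⟨h1, inferInstance⟩
  · rintro ⟨h1, h2⟩
    exact ⟨h1, (LinearMap.flip_bijective_iff₁).mpr h1⟩

lemma perfect_iff' (X : Sch k) :
    Perfect D X ↔ (∀ i n, Bij (D.toCmp.c i n X)) ∧ ∀ i n, Module.Finite ℚ (D.toCmp.M i n X) := by
  constructor
  · intro h
    exact ⟨fun i n => ((perfect_iff i n X).mp (h i n)).1,
      fun i n => ((perfect_iff i n X).mp (h i n)).2⟩
  · rintro ⟨h1, h2⟩ i n
    exact (perfect_iff i n X).mpr ⟨h1 i n, h2 i n⟩

lemma bnd_perfect (hD : IsPairThy D) : Bnd True (Perfect D) := by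
  have h : Perfect D = fun X => (∀ i n, Bij (D.toCmp.c i n X)) ∧
      ∀ i n, Module.Finite ℚ (D.toCmp.M i n X) := funext fun X => propext (perfect_iff' X)
  rw [h]
  exact bnd_and (bnd_cmp hD.cmp) (bnd_fin hD.cmp hD.point)

/-- **Theorem.** Let `k` be a finite field, and let `d = 0, 1, 2, …` or `d = ∞`. The pairings (in all
degrees and weights) are perfect for all smooth proper schemes over `k` of dimension at most `d` if and
only if they are perfect for the hypersurfaces `T(x, y, z) = 1` of all trilinear forms `T` over `k` which
are not of cubic type and such that one of the three blocks of variables has at most `d + 2` elements.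
Here `T` is of cubic type if one of the blocks of `T` has at most three elements, or if there are at most
four variables `z` and every minor of the matrix of linear forms `T(z)` is a product of polynomials of
degree at most three and of polynomials with at most four terms. -/
theorem result [Finite k] (hD : IsPairThy D) (d : ℕ∞) :
    ForSmoothProper (Perfect D) d ↔ ForRemaining (Perfect D) (d + 2) := by
  have hB : Bnd True (Perfect D) := bnd_perfect hD
  have hf : ∀ {V U : Sch k} (f : V ⟶ U), FT True U → IsFinite f.left → Flat f.left →
      Surjective f.left → IsIntegral V.left → IsIntegral U.left → Perfect D V → Perfect D U := by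
    intro V U f h1 h2 h3 h4 h5 h6 h i n
    have h7 := (perfect_iff i n V).mp (h i n)
    have h8 := hD.transfer f h1 h2 h3 h4 h5 h6 i n
    exact (perfect_iff i n U).mpr ⟨bij_summand h8 h7.1, fin_summand h8 h7.2⟩
  have h3 : ForBlock (Perfect D) 3 := (alt_iff hB hf hD.alterations 1).mp hD.curves
  rw [← remaining_iff hB h3 hD.surfaces]
  exact alt_blocks hB hf hD.alterations d

end Pool.Agent.Results.MP_a9d3bd_ag.TrilinearHypersurfaces
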